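import Pool.Agent.Helper29.UG.Props
import Pool.Agent.Helper10.RC.Fin

/-!
# MP_b55b7c_an: the invariant element of conditional variance `1 / (4 n ^ 2)`
-/

open scoped ENNReal NNReal InnerProductSpace ComplexOrder
open Filter Topology

attribute [-instance] CStarMatrix.instAlgebra CStarMatrix.instModule CStarMatrix.instSMul
  CStarMatrix.instMulAction CStarMatrix.instDistribMulAction

noncomputable section
namespace RC
namespace UGVar2
universe u

section
variable {A : Type u} [CStarAlgebra A] [PartialOrder A] [StarOrderedRing A]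

theorem norm_le_one' {e : A} (h0 : 0 ≤ e) (h1 : e ≤ 1) : ‖e‖ ≤ 1 :=
  (CStarAlgebra.norm_le_one_iff_of_nonneg e h0).2 h1

theorem norm_one_sub_le {e : A} (h0 : 0 ≤ e) (h1 : e ≤ 1) : ‖1 - e‖ ≤ 1 :=
  norm_le_one' (sub_nonneg.2 h1) (sub_le_self _ h0)

theorem sub_sq_nonneg {e : A} (h0 : 0 ≤ e) (h1 : e ≤ 1) : 0 ≤ e - e * e := by
  have hs : IsSelfAdjoint e := h0.isSelfAdjoint
  have hs' : IsSelfAdjoint (1 - e) := (sub_nonneg.2 h1).isSelfAdjoint
  have a1 : 0 ≤ star e * (1 - e) * e := star_left_conjugate_nonneg (sub_nonneg.2 h1) e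
  have a2 : 0 ≤ star (1 - e) * e * (1 - e) := star_left_conjugate_nonneg h0 (1 - e)
  rw [hs.star_eq] at a1
  rw [hs'.star_eq] at a2
  have : e - e * e = e * (1 - e) * e + (1 - e) * e * (1 - e) := by noncomm_ring
  rw [this]
  exact add_nonneg a1 a2

theorem sub_sq_le {e : A} (h0 : 0 ≤ e) (h1 : e ≤ 1) : e - e * e ≤ 1 := by
  have hs : IsSelfAdjoint e := h0.isSelfAdjoint
  have : 0 ≤ star e * e := star_mul_self_nonneg e
  rw [hs.star_eq] at this
  exact (sub_le_self _ this).trans h1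

theorem n2_sub_sq (hN : N2P.{u}) (φ : TState A) {e : A} (h0 : 0 ≤ e) (h1 : e ≤ 1) {s : ℝ}
    (hs : 0 ≤ s) (h : (φ.φ (e - e * e)).re ≤ s ^ 2) : n2 φ (e - e * e) ≤ s := by
  have hb0 := sub_sq_nonneg h0 h1
  have hb1 := sub_sq_le h0 h1
  have hbb := sub_sq_nonneg hb0 hb1
  obtain ⟨n1, _, _, n4⟩ := hN A φ
  have h2 := (n1 (e - e * e)).2.1
  rw [hb0.isSelfAdjoint.star_eq] at h2
  have h3 := n4 _ _ (sub_nonneg.1 hbb)
  have h4 : n2 φ (e - e * e) ^ 2 ≤ s ^ 2 := by rw [h2]; exact h3.trans h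
  exact (pow_le_pow_iff_left₀ (n1 _).1 hs two_ne_zero).1 h4

theorem phi_mul_le (hN : N2P.{u}) (φ : TState A) (x y : A) : ‖φ.φ (x * y)‖ ≤ n2 φ x * ‖y‖ := by
  obtain ⟨n1, _, n3, _⟩ := hN A φ
  have h1 := (n3 (star x) y).2.2.2.2
  rw [star_star, (n1 x).2.2.2.2.1] at h1
  exact h1.trans (mul_le_mul_of_nonneg_left (n1 y).2.2.1 (n1 x).1)

/-- The off-diagonal terms. -/
theorem off_diag (hN : N2P.{u}) (φ : TState A) {e f z : A} (h0 : 0 ≤ e) (h1 : e ≤ 1)
    (g0 : 0 ≤ f) (g1 : f ≤ 1) {s C : ℝ} (hs : 0 ≤ s) (hz : ‖z‖ ≤ C)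
    (hp : n2 φ (e - e * e) ≤ s) (hc : n2 φ (e * z - z * e) ≤ s)
    (hc' : n2 φ (e * star z - star z * e) ≤ s) :
    -((2 * C + C ^ 2) * s) ≤ (φ.φ (star z * e * f * z)).re := by
  obtain ⟨n1, _, n3, n4⟩ := hN A φ
  have hC : 0 ≤ C := (norm_nonneg z).trans hz
  have he := norm_le_one' h0 h1
  have he' := norm_one_sub_le h0 h1
  have hf := norm_le_one' g0 g1
  have hse : star e = e := h0.isSelfAdjoint.star_eq
  have hzs : ‖star z‖ ≤ C := by rw [norm_star]; exact hz
  have e1 : star z * e * f * z = star (e * z) * f * (e * z) +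
      (star z * e * f * z * (1 - e) + (star z * e * f) * (z * e - e * z)) := by
    rw [star_mul, hse]; noncomm_ring
  have p1 : 0 ≤ (φ.φ (star (e * z) * f * (e * z))).re := by
    have := φ.nonneg _ (star_left_conjugate_nonneg g0 (e * z))
    exact (Complex.nonneg_iff.1 this).1
  have p2 : ‖φ.φ (star z * e * f * z * (1 - e))‖ ≤ (C * s + s) * C := by
    rw [φ.trace (star z * e * f * z) (1 - e)]
    have e2 : (1 - e) * (star z * e * f * z) = ((1 - e) * star z * e) * (f * z) := by noncomm_ring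
    have e3 : (1 - e) * star z * e = (e - e * e) * star z +
        (1 - e) * (-(e * star z - star z * e)) := by noncomm_ring
    rw [e2]
    have q1 := phi_mul_le hN φ ((1 - e) * star z * e) (f * z)
    have q2 : n2 φ ((1 - e) * star z * e) ≤ C * s + s := by
      rw [e3]
      refine (n3 _ _).1.trans ?_
      refine add_le_add ?_ ?_
      · refine (n3 _ _).2.2.2.1.trans ?_
        rw [mul_comm]
        exact mul_le_mul hzs hp (n1 _).1 hC
      · refine (n3 _ _).2.2.1.trans ?_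
        rw [(n1 _).2.2.2.2.2]
        calc _ ≤ 1 * s := mul_le_mul he' hc' (n1 _).1 zero_le_one
          _ = s := one_mul _
    have q3 : ‖f * z‖ ≤ C := by
      refine (norm_mul_le _ _).trans ?_
      calc _ ≤ 1 * C := mul_le_mul hf hz (norm_nonneg _) zero_le_one
        _ = C := one_mul _
    exact q1.trans (mul_le_mul q2 q3 (norm_nonneg _) (by positivity))
  have p3 : ‖φ.φ ((star z * e * f) * (z * e - e * z))‖ ≤ C * s := by
    refine (n1 _).2.2.2.1.trans ((n3 _ _).2.2.1.trans ?_)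
    have q1 : ‖star z * e * f‖ ≤ C := by
      refine (norm_mul_le _ _).trans ?_
      have : ‖star z * e‖ ≤ C := by
        refine (norm_mul_le _ _).trans ?_
        calc _ ≤ C * 1 := mul_le_mul hzs he (norm_nonneg _) hC
          _ = C := mul_one _
      calc _ ≤ C * 1 := mul_le_mul this hf (norm_nonneg _) hC
        _ = C := mul_one _
    have q2 : n2 φ (z * e - e * z) ≤ s := by
      rw [← neg_sub, (n1 _).2.2.2.2.2]; exact hc
    exact mul_le_mul q1 q2 (n1 _).1 hC
  rw [e1, map_add, map_add, Complex.add_re, Complex.add_re]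
  have r2 := (abs_le.1 ((Complex.abs_re_le_norm _).trans p2)).1
  have r3 := (abs_le.1 ((Complex.abs_re_le_norm _).trans p3)).1
  nlinarith

/-- The diagonal terms. -/
theorem diag (hN : N2P.{u}) (φ : TState A) {e z : A}
    {s C m : ℝ} (hs : 0 ≤ s) (hz : ‖z‖ ≤ C)
    (hp : n2 φ (e - e * e) ≤ s) (ht : m - s ≤ (φ.φ (star z * e * z)).re) :
    m - (1 + 2 * C + C ^ 2) * s ≤ (φ.φ (star z * e * e * z)).re := by
  obtain ⟨n1, _, n3, n4⟩ := hN A φ
  have hC : 0 ≤ C := (norm_nonneg z).trans hz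
  have hzs : ‖star z‖ ≤ C := by rw [norm_star]; exact hz
  have e1 : star z * e * e * z = star z * e * z - star z * ((e - e * e) * z) := by noncomm_ring
  have p1 : ‖φ.φ (star z * ((e - e * e) * z))‖ ≤ C * (s * C) := by
    refine (n1 _).2.2.2.1.trans ((n3 _ _).2.2.1.trans ?_)
    refine mul_le_mul hzs ?_ (n1 _).1 hC
    exact (n3 _ _).2.2.2.1.trans (mul_le_mul hp hz (norm_nonneg _) hs)
  rw [e1, map_sub, Complex.sub_re]
  have r1 := (abs_le.1 ((Complex.abs_re_le_norm _).trans p1)).2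
  nlinarith [mul_nonneg hC hs]

/-- The self-adjoint contraction `(1/n) ∑ e_g - 1/(2n)`. -/
def xi {G : Type} [Fintype G] (e : G → A) : A :=
  ((Fintype.card G : ℂ)⁻¹) • ∑ g, e g - ((Fintype.card G : ℂ)⁻¹ / 2) • (1 : A)

theorem xi_norm {G : Type} [Fintype G] [Nonempty G] (e : G → A) (h0 : ∀ g, 0 ≤ e g)
    (h1 : ∀ g, e g ≤ 1) : ‖xi e‖ ≤ 1 := by
  have hn : (0 : ℝ) < Fintype.card G := by exact_mod_cast Fintype.card_pos
  have hn1 : (1 : ℝ) ≤ Fintype.card G := by exact_mod_cast Fintype.card_pos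
  have hnc : (Fintype.card G : ℂ) ≠ 0 := by exact_mod_cast hn.ne'
  set c : ℂ := (Fintype.card G : ℂ)⁻¹ with hc
  have hcr : c = (((Fintype.card G : ℝ)⁻¹ : ℝ) : ℂ) := by rw [hc]; push_cast; rfl
  have hcn : ‖c‖ = (Fintype.card G : ℝ)⁻¹ := by
    rw [hcr, Complex.norm_real, Real.norm_of_nonneg (by positivity)]
  have key : ∀ f : G → A, (∀ g, ‖f g‖ ≤ 1) → ‖c • ∑ g, f g‖ ≤ 1 := by
    intro f hf
    rw [norm_smul, hcn]
    have : ‖∑ g, f g‖ ≤ Fintype.card G := by
      refine (norm_sum_le _ _).trans ((Finset.sum_le_sum fun g _ => hf g).trans ?_)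
      simp
    calc _ ≤ (Fintype.card G : ℝ)⁻¹ * Fintype.card G :=
          mul_le_mul_of_nonneg_left this (by positivity)
      _ = 1 := inv_mul_cancel₀ hn.ne'
  have k1 := key e fun g => norm_le_one' (h0 g) (h1 g)
  have k2 := key (fun g => 1 - e g) fun g => norm_one_sub_le (h0 g) (h1 g)
  have e2 : c • ∑ g, (1 - e g) = 1 - c • ∑ g, e g := by
    rw [Finset.sum_sub_distrib, smul_sub, Finset.sum_const, Finset.card_univ,
      ← Nat.cast_smul_eq_nsmul ℂ, smul_smul, inv_mul_cancel₀ hnc, one_smul]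
  rw [e2] at k2
  have e3 : xi e = (1 - c / 2) • (c • ∑ g, e g) - (c / 2) • (1 - c • ∑ g, e g) := by
    rw [xi, ← hc]
    module
  have hi : (Fintype.card G : ℝ)⁻¹ ≤ 1 := inv_le_one_of_one_le₀ hn1
  have hi0 : 0 ≤ (Fintype.card G : ℝ)⁻¹ := by positivity
  have n1 : ‖1 - c / 2‖ = 1 - (Fintype.card G : ℝ)⁻¹ / 2 := by
    have : 1 - c / 2 = (((1 - (Fintype.card G : ℝ)⁻¹ / 2 : ℝ)) : ℂ) := by
      rw [hcr]; push_cast; rfl
    rw [this, Complex.norm_real, Real.norm_of_nonneg (by linarith)]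
  have n2' : ‖c / 2‖ = (Fintype.card G : ℝ)⁻¹ / 2 := by
    rw [norm_div, hcn]; simp
  rw [e3]
  refine (norm_sub_le _ _).trans ?_
  rw [norm_smul (1 - c / 2), norm_smul (c / 2), n1, n2']
  nlinarith

theorem n2_sum_le (hN : N2P.{u}) (φ : TState A) {G : Type} [Fintype G] (f : G → A) {s : ℝ}
    (h : ∀ g, n2 φ (f g) ≤ s) : n2 φ (∑ g, f g) ≤ Fintype.card G * s := by
  classical
  obtain ⟨n1, _, n3, _⟩ := hN A φ
  have key : ∀ S : Finset G, n2 φ (∑ g ∈ S, f g) ≤ S.card * s := by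
    intro S
    induction S using Finset.induction_on with
    | empty =>
      have := (n1 (0 : A)).2.2.1
      simpa using this
    | insert a S ha ih =>
      rw [Finset.sum_insert ha, Finset.card_insert_of_notMem ha]
      refine (n3 _ _).1.trans ?_
      push_cast
      have := h a
      linarith
  exact key Finset.univ

theorem core (hN : N2P.{u}) (φ : TState A) {G : Type} [Fintype G] [Nonempty G] (e : G → A)
    (h0 : ∀ g, 0 ≤ e g) (h1 : ∀ g, e g ≤ 1) {s C : ℝ} (hs : 0 ≤ s) {z : A} (hz : ‖z‖ ≤ C)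
    (hp : ∀ g, n2 φ (e g - e g * e g) ≤ s) (hc : ∀ g, n2 φ (e g * z - z * e g) ≤ s)
    (hc' : ∀ g, n2 φ (e g * star z - star z * e g) ≤ s)
    (ht : ∀ g, ‖φ.φ (e g * z) - φ.φ z / ((2 * Fintype.card G : ℕ) : ℂ)‖ ≤ s)
    (ht' : ∀ g, ‖φ.φ (e g * (z * star z)) -
      φ.φ (z * star z) / ((2 * Fintype.card G : ℕ) : ℂ)‖ ≤ s) :
    n2 φ (xi e * z - z * xi e) ≤ s ∧ ‖φ.φ (xi e * z)‖ ≤ s ∧
      1 / (4 * (Fintype.card G : ℝ) ^ 2) * n2 φ z ^ 2 - (2 + 2 * C + C ^ 2) * s ≤
        n2 φ (xi e * z) ^ 2 := by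
  classical
  obtain ⟨n1, n2', n3, n4⟩ := hN A φ
  have hC : 0 ≤ C := (norm_nonneg z).trans hz
  have hn : (0 : ℝ) < Fintype.card G := by exact_mod_cast Fintype.card_pos
  have hn1 : (1 : ℝ) ≤ Fintype.card G := by exact_mod_cast Fintype.card_pos
  have hnc : (Fintype.card G : ℂ) ≠ 0 := by exact_mod_cast hn.ne'
  set n : ℝ := (Fintype.card G : ℝ) with hnd
  set c : ℂ := (Fintype.card G : ℂ)⁻¹ with hcd
  have hcr : c = ((n⁻¹ : ℝ) : ℂ) := by rw [hcd]; push_cast; rfl
  have hcn : ‖c‖ = n⁻¹ := by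
    rw [hcr, Complex.norm_real, Real.norm_of_nonneg (by positivity)]
  have hcG : c * (Fintype.card G : ℂ) = 1 := inv_mul_cancel₀ hnc
  have hx : xi e = c • ∑ g, e g - (c / 2) • (1 : A) := rfl
  refine ⟨?_, ?_, ?_⟩
  · have e1 : xi e * z - z * xi e = c • ∑ g, (e g * z - z * e g) := by
      rw [hx, Finset.sum_sub_distrib, ← Finset.sum_mul, ← Finset.mul_sum, smul_sub, sub_mul,
        mul_sub, smul_mul_assoc, mul_smul_comm, smul_mul_assoc, mul_smul_comm, one_mul, mul_one]
      abel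
    rw [e1, n2', hcn]
    have := n2_sum_le hN φ (fun g => e g * z - z * e g) hc
    calc _ ≤ n⁻¹ * (n * s) := mul_le_mul_of_nonneg_left this (by positivity)
      _ = s := by field_simp
  · have e1 : φ.φ (xi e * z) =
        c * ∑ g, (φ.φ (e g * z) - φ.φ z / ((2 * Fintype.card G : ℕ) : ℂ)) := by
      rw [hx, sub_mul, smul_mul_assoc, smul_mul_assoc, one_mul, Finset.sum_mul, map_sub, map_smul,
        map_smul, map_sum, Finset.sum_sub_distrib, Finset.sum_const, Finset.card_univ,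
        nsmul_eq_mul, smul_eq_mul, smul_eq_mul, mul_sub, ← mul_assoc, hcG]
      have : φ.φ z / ((2 * Fintype.card G : ℕ) : ℂ) = c / 2 * φ.φ z := by
        rw [hcd]; push_cast; field_simp
      rw [one_mul, this]
    rw [e1, norm_mul, hcn]
    have : ‖∑ g, (φ.φ (e g * z) - φ.φ z / ((2 * Fintype.card G : ℕ) : ℂ))‖ ≤ n * s := by
      refine (norm_sum_le _ _).trans ((Finset.sum_le_sum fun g _ => ht g).trans ?_)
      simp [hnd]
    calc _ ≤ n⁻¹ * (n * s) := mul_le_mul_of_nonneg_left this (by positivity)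
      _ = s := by field_simp
  · -- the variance
    have hse : ∀ g, star (e g) = e g := fun g => (h0 g).isSelfAdjoint.star_eq
    set M : ℝ := n2 φ z ^ 2 with hM
    have hM1 : M = (φ.φ (star z * z)).re := (n1 z).2.1
    have hM2 : M = (φ.φ (z * star z)).re := by rw [hM1, φ.trace]
    -- the linear terms
    have lin : ∀ g, |(φ.φ (star z * e g * z)).re - M / (2 * n)| ≤ s := by
      intro g
      have e1 : φ.φ (star z * e g * z) = φ.φ (e g * (z * star z)) := by
        rw [mul_assoc, φ.trace, mul_assoc]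
      have e2 : (φ.φ (z * star z) / ((2 * Fintype.card G : ℕ) : ℂ)).re = M / (2 * n) := by
        have : (((2 * Fintype.card G : ℕ) : ℂ)) = ((2 * n : ℝ) : ℂ) := by
          rw [hnd]; push_cast; rfl
        rw [this, Complex.div_ofReal_re, hM2]
      have e3 := (Complex.abs_re_le_norm _).trans (ht' g)
      rwa [Complex.sub_re, e2, ← e1] at e3
    -- the quadratic terms
    have quad : ∀ g h, (if g = h then M / (2 * n) else 0) - (1 + 2 * C + C ^ 2) * s ≤
        (φ.φ (star z * e g * e h * z)).re := by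
      intro g h
      by_cases hgh : g = h
      · subst hgh
        rw [if_pos rfl]
        exact diag hN φ hs hz (hp g) (by have := (abs_le.1 (lin g)).1; linarith)
      · rw [if_neg hgh]
        have := off_diag hN φ (h0 g) (h1 g) (h0 h) (h1 h) hs hz (hp g) (hc g) (hc' g)
        nlinarith
    have sq : n / 1 * (M / (2 * n)) - n ^ 2 * ((1 + 2 * C + C ^ 2) * s) ≤
        ∑ g, ∑ h, (φ.φ (star z * e g * e h * z)).re := by
      have := Finset.sum_le_sum fun g (_ : g ∈ (Finset.univ : Finset G)) =>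
        Finset.sum_le_sum fun h (_ : h ∈ (Finset.univ : Finset G)) => quad g h
      refine le_trans (le_of_eq ?_) this
      simp only [Finset.sum_sub_distrib, Finset.sum_ite_eq, Finset.mem_univ, if_true,
        Finset.sum_const, Finset.card_univ, nsmul_eq_mul]
      rw [← hnd]; ring
    have sl : ∑ g, (φ.φ (star z * e g * z)).re ≤ n * (M / (2 * n) + s) := by
      have := Finset.sum_le_sum fun g (_ : g ∈ (Finset.univ : Finset G)) =>
        (by have := (abs_le.1 (lin g)).2; linarith :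
          (φ.φ (star z * e g * z)).re ≤ M / (2 * n) + s)
      refine this.trans (le_of_eq ?_)
      rw [Finset.sum_const, Finset.card_univ, nsmul_eq_mul]
    -- expansion
    have hcs : star c = c := by rw [hcr]; simp
    have hxs : star (xi e) = xi e := by
      rw [hx, star_sub, star_smul, star_smul, star_sum, star_one, star_div₀, hcs]
      simp only [hse]
      simp
    have ex : star (xi e * z) * (xi e * z) =
        (c ^ 2) • ∑ g, ∑ h, star z * e g * e h * z - (c ^ 2) • ∑ g, star z * e g * z +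
          (c ^ 2 / 4) • (star z * z) := by
      have q1 : ∑ g, ∑ h, star z * e g * e h * z = star z * (∑ g, e g) * (∑ g, e g) * z := by
        simp only [Finset.mul_sum, Finset.sum_mul]
        rw [Finset.sum_comm]
      have q2 : ∑ g, star z * e g * z = star z * (∑ g, e g) * z := by
        simp only [Finset.mul_sum, Finset.sum_mul]
      rw [q1, q2, star_mul, hxs, hx]
      generalize ∑ g, e g = X
      have : (c • X - (c / 2) • (1 : A)) * (c • X - (c / 2) • (1 : A)) =
          (c ^ 2) • (X * X) - (c ^ 2) • X + (c ^ 2 / 4) • (1 : A) := by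
        rw [sub_mul, mul_sub, mul_sub, smul_mul_smul_comm, smul_mul_smul_comm, smul_mul_smul_comm,
          smul_mul_smul_comm, mul_one, one_mul, mul_one]
        module
      calc star z * (c • X - (c / 2) • 1) * ((c • X - (c / 2) • 1) * z) =
          star z * ((c • X - (c / 2) • 1) * (c • X - (c / 2) • 1)) * z := by
            simp only [mul_assoc]
        _ = _ := by
            rw [this]
            simp only [mul_add, mul_sub, add_mul, sub_mul, mul_smul_comm, smul_mul_assoc, mul_one,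
              mul_assoc]
    have hc2 : c ^ 2 = ((n⁻¹ ^ 2 : ℝ) : ℂ) := by rw [hcr]; push_cast; rfl
    have hc4 : c ^ 2 / 4 = ((n⁻¹ ^ 2 / 4 : ℝ) : ℂ) := by rw [hcr]; push_cast; rfl
    have ex2 : n2 φ (xi e * z) ^ 2 = n⁻¹ ^ 2 * ∑ g, ∑ h, (φ.φ (star z * e g * e h * z)).re -
        n⁻¹ ^ 2 * ∑ g, (φ.φ (star z * e g * z)).re + n⁻¹ ^ 2 / 4 * M := by
      rw [(n1 _).2.1, ex, map_add, map_sub, map_smul, map_smul, map_smul, hc4, hc2, smul_eq_mul,
        smul_eq_mul, smul_eq_mul, Complex.add_re, Complex.sub_re, Complex.re_ofReal_mul,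
        Complex.re_ofReal_mul, Complex.re_ofReal_mul, map_sum, map_sum, Complex.re_sum,
        Complex.re_sum, ← hM1]
      simp only [map_sum, Complex.re_sum]
    rw [ex2]
    have hi : 0 < n⁻¹ ^ 2 := by positivity
    have m1 := mul_le_mul_of_nonneg_left sq hi.le
    have m2 := mul_le_mul_of_nonneg_left sl hi.le
    have r1 : n⁻¹ ^ 2 * (n / 1 * (M / (2 * n)) - n ^ 2 * ((1 + 2 * C + C ^ 2) * s)) =
        n⁻¹ ^ 2 * M / 2 - (1 + 2 * C + C ^ 2) * s := by
      field_simp
    have r2 : n⁻¹ ^ 2 * (n * (M / (2 * n) + s)) = n⁻¹ ^ 2 * M / 2 + n⁻¹ * s := by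
      field_simp
    have r3 : 1 / (4 * n ^ 2) * M = n⁻¹ ^ 2 / 4 * M := by field_simp
    have r4 : n⁻¹ * s ≤ s := by
      have : n⁻¹ ≤ 1 := inv_le_one_of_one_le₀ hn1
      nlinarith
    rw [r1] at m1
    rw [r2] at m2
    rw [r3]
    nlinarith

end

theorem var (hN : N2P.{u}) : VarP.{u} := by
  intro A _ _ _ G _ _ α hα hΓ F ε hε
  classical
  obtain ⟨C, hC0, hC⟩ : ∃ C : ℝ, 0 ≤ C ∧ ∀ z ∈ F, ‖z‖ ≤ C := by
    refine ⟨∑ z ∈ F, ‖z‖, Finset.sum_nonneg fun _ _ => norm_nonneg _, fun z hz => ?_⟩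
    exact Finset.single_le_sum (f := fun z : A => ‖z‖) (fun _ _ => norm_nonneg _) hz
  set K : ℝ := 2 + 2 * C + C ^ 2 with hK
  have hK1 : 1 ≤ K := by nlinarith [sq_nonneg C]
  have hK0 : 0 < K := by linarith
  set s : ℝ := min 1 (ε / K) with hs
  have hs0 : 0 < s := lt_min one_pos (by positivity)
  have hs1 : s ≤ 1 := min_le_left _ _
  have hsK : K * s ≤ ε := by
    have : s ≤ ε / K := min_le_right _ _
    calc K * s ≤ K * (ε / K) := mul_le_mul_of_nonneg_left this hK0.le
      _ = ε := by field_simp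
  have hsε : s ≤ ε := by nlinarith
  have hss : s ^ 2 ≤ s := by nlinarith
  have hn : (0 : ℝ) < Fintype.card G := by exact_mod_cast Fintype.card_pos
  set F0 : Finset A := (Finset.univ : Finset G).biUnion fun g =>
    F.image (fun z => α g⁻¹ z) ∪ F.image (fun z => α g⁻¹ (star z)) ∪
      F.image (fun z => α g⁻¹ (z * star z)) with hF0
  obtain ⟨e, he0, he1, he⟩ := hΓ (2 * Fintype.card G) F0 (s ^ 2)
    (Nat.mul_pos two_pos Fintype.card_pos) (by positivity)
  have hinv : ∀ g x, α g (α g⁻¹ x) = x := fun g x => by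
    rw [← hα, mul_inv_cancel, hα.one_apply]
  have hE0 : ∀ g, 0 ≤ α g e := fun g => map_nonneg (α g) he0
  have hE1 : ∀ g, α g e ≤ 1 := fun g => by
    have := map_nonneg (α g) (sub_nonneg.2 he1)
    rw [map_sub (α g), map_one (α g)] at this
    exact sub_nonneg.1 this
  refine ⟨xi fun g => α g e, ?_, ?_, xi_norm _ hE0 hE1, ?_⟩
  · intro g
    rw [xi, map_sub (α g), map_smul (α g), map_smul (α g), map_sum (α g), map_one (α g)]
    congr 2
    exact Fintype.sum_equiv (Equiv.mulLeft g) _ _ fun k => by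
      rw [Equiv.coe_mulLeft, hα g k e]
  · have hse : ∀ g, star (α g e) = α g e := fun g => (hE0 g).isSelfAdjoint.star_eq
    rw [IsSelfAdjoint, xi, star_sub, star_smul, star_smul, star_sum, star_one, star_div₀]
    simp only [hse]
    simp
  · intro φ hφ z hz
    obtain ⟨n1, n2', n3, n4⟩ := hN A φ
    have hn2 : ∀ g x, n2 φ (α g x) = n2 φ x := by
      intro g x
      rw [n2, n2, ← map_star (α g), ← map_mul (α g), hφ]
    have hmem : ∀ g, α g⁻¹ z ∈ F0 ∧ α g⁻¹ (star z) ∈ F0 ∧ α g⁻¹ (z * star z) ∈ F0 := by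
      intro g
      refine ⟨?_, ?_, ?_⟩ <;> rw [hF0, Finset.mem_biUnion] <;> refine ⟨g, Finset.mem_univ _, ?_⟩
      · exact Finset.mem_union_left _ (Finset.mem_union_left _ (Finset.mem_image_of_mem _ hz))
      · exact Finset.mem_union_left _ (Finset.mem_union_right _
          (Finset.mem_image_of_mem (fun z => α g⁻¹ (star z)) hz))
      · exact Finset.mem_union_right _ (Finset.mem_image_of_mem (fun z => α g⁻¹ (z * star z)) hz)
    have hcomm : ∀ g x, α g⁻¹ x ∈ F0 → n2 φ (α g e * x - x * α g e) ≤ s := by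
      intro g x hx
      have h1 : α g e * x - x * α g e = α g (e * α g⁻¹ x - α g⁻¹ x * e) := by
        rw [map_sub (α g), map_mul (α g), map_mul (α g), hinv]
      rw [h1, hn2]
      have h2 := ((he φ).2 _ hx).1
      rw [← (n1 _).2.1] at h2
      exact (pow_le_pow_iff_left₀ (n1 _).1 hs0.le two_ne_zero).1 h2
    have htr : ∀ g x, α g⁻¹ x ∈ F0 →
        ‖φ.φ (α g e * x) - φ.φ x / ((2 * Fintype.card G : ℕ) : ℂ)‖ ≤ s := by
      intro g x hx
      have h2 := ((he φ).2 _ hx).2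
      have h3 : φ.φ (e * α g⁻¹ x) = φ.φ (α g e * x) := by
        rw [← hφ g (e * α g⁻¹ x), map_mul (α g), hinv]
      have h4 : φ.φ (α g⁻¹ x) = φ.φ x := hφ _ _
      rw [h3, h4] at h2
      exact h2.trans hss
    have hpp : ∀ g, n2 φ (α g e - α g e * α g e) ≤ s := by
      intro g
      rw [← map_mul (α g), ← map_sub (α g), hn2]
      exact n2_sub_sq hN φ he0 he1 hs0.le (he φ).1
    obtain ⟨c1, c2, c3⟩ := core hN φ (fun g => α g e) hE0 hE1 hs0.le (hC z hz) hpp
      (fun g => hcomm g z (hmem g).1) (fun g => hcomm g (star z) (hmem g).2.1)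
      (fun g => htr g z (hmem g).1) (fun g => htr g (z * star z) (hmem g).2.2)
    refine ⟨c1.trans hsε, c2.trans hsε, le_trans ?_ c3⟩
    linarith

end UGVar2
end RC
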